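import Pool.Agent.Q255.HC.Stm

set_option autoImplicit false

/-!
# Project CU (helper255): short sums of characters twisted by a random cubic function

`f` is the completely multiplicative function whose values at the primes are independent uniform
cube roots of unity.
-/

namespace Pool.Agent.Q255.CU

open MeasureTheory Filter Topology Finset
open Pool.Agent.Q255.HC (Sys ex)

noncomputable section

/-- the uniform measure on the exponents -/
def m3 : Measure (ZMod 3) := (PMF.uniformOfFintype (ZMod 3)).toMeasure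

/-- `exp(2πi j y/3)` -/
def e3 (j y : ZMod 3) : ℂ := ZMod.stdAddChar (j * y)

/-- the weights -/
def v3 (_ : ZMod 3) : ℝ := 2

/-- the exponents modulo `3` -/
def fc (n : ℕ) : ℕ →₀ ZMod 3 :=
  n.factorization.mapRange (fun m : ℕ => (m : ZMod 3)) (by simp)

/-- the completely multiplicative function with the value `exp(2πi ω_p/3)` at the prime `p` -/
def f3 (ω : ℕ → ZMod 3) (n : ℕ) : ℂ :=
  ∏ p ∈ n.primeFactors, (ZMod.stdAddChar (ω p) : ℂ) ^ n.factorization p

/-- SYT: the cube roots of unity form a system in the sense of project HC; `f` is a product of them;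
`f` is completely multiplicative and unimodular, and orthogonality. -/
def S_SYT : Prop := Sys m3 e3 v3 ∧
  (∀ (ω : ℕ → ZMod 3) (n : ℕ), 1 ≤ n → f3 ω n = ex e3 (fc n) ω) ∧
  (∀ (ω : ℕ → ZMod 3) (m n : ℕ), 1 ≤ m → 1 ≤ n → f3 ω (m * n) = f3 ω m * f3 ω n) ∧
  (∀ (ω : ℕ → ZMod 3) (n : ℕ), ‖f3 ω n‖ = 1 ∧ f3 ω n ^ 3 = 1 ∧ Measurable fun ω' => f3 ω' n) ∧
  (∀ m n : ℕ, 1 ≤ m → 1 ≤ n →
    ∫ ω, f3 ω m * star (f3 ω n) ∂(Measure.infinitePi fun _ : ℕ => m3) =
      if fc m = fc n then 1 else 0)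

/-- WGT: the weights of the characters are small. Proof: at most `(2K)^{ω(n)} ≤ D n^η`. -/
def S_WGT : Prop := ∀ K : ℝ, 1 ≤ K → ∀ η : ℝ, 0 < η → ∃ D : ℝ, 0 < D ∧ ∀ n : ℕ, 1 ≤ n →
  ∏ p ∈ (fc n).support, (K * v3 (fc n p)) ≤ D * (n : ℝ) ^ η

/-- CUB: integers of an interval with the same exponents modulo `3`.
Proof: `fc a = x` means `a = s u³` with the cube-free number `s` of `x`; the number `r_x` of such `a` in an
interval of length `N` is at most `1 + (N/s)^(1/3)` (`(u+j)³ - u³ ≥ j³`), and `r_x ≥ 2` only if `s < N`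
(`s ((u+1)³ - u³) < N`). So `∑_x r_x² ≤ ∑_{s < N} 4 (N/s)^(2/3) + ∑_x r_x ≤ 12 N + N`. -/
def S_CUB : Prop := ∀ M N : ℕ, 1 ≤ N →
  ∑ x ∈ (Ioc M (M + N)).image fc,
    (((Ioc M (M + N)).filter (fun a => fc a = x)).card : ℝ) ^ 2 ≤ 20 * N

/-- SHP: for every unimodular function and every prime modulus some character has a large sum.
Proof: `∑_χ |S_χ|² = (q-1) #{a ∈ (M, M+N] : q ∤ a} ≥ (q-1)(N-1)`, the principal character contributes at
most `N²`, so that the mean over `χ ≠ 1` is at least `N/4` for `4 ≤ N ≤ (q-1)/2`. -/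
def S_SHP : Prop := ∀ (f : ℕ → ℂ), (∀ n, 1 ≤ n → ‖f n‖ = 1) → ∀ q : ℕ, q.Prime → ∀ M N : ℕ, 4 ≤ N →
  2 * N + 1 ≤ q → ∃ χ : DirichletCharacter ℂ q, χ ≠ 1 ∧
    Real.sqrt N / 2 ≤ ‖∑ a ∈ Ioc M (M + N), f a * χ (a : ZMod q)‖

/-- MSQ: mean square over the random function for one cubic character.
Proof: the mean square is `∑ χ(a) conj χ(b)` over the pairs with `fc a = fc b`, i.e. `a v³ = b u³`; for a
cubic `χ` every term is `1` or `0`, since then `χ(a) = χ(b)` or one of them is `0`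
(if `q` has a common factor with `a` but not with `b` the term is `0`). -/
def S_MSQ : Prop := ∀ (q : ℕ) (χ : DirichletCharacter ℂ q), 1 ≤ q → χ ^ 3 = 1 → ∀ M N : ℕ,
  (((Ioc M (M + N)).filter (fun a => a.Coprime q)).card : ℝ) ≤
    ∫ ω, ‖∑ a ∈ Ioc M (M + N), f3 ω a * χ (a : ZMod q)‖ ^ 2
      ∂(Measure.infinitePi fun _ : ℕ => m3)

/-- FLM: an almost sure property holds for all finite modifications (adding an exponent at finitely
many primes preserves the measure; countably many modifications). -/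
def S_FLM : Prop := ∀ P : (ℕ → ZMod 3) → Prop,
  (∀ᵐ ω ∂(Measure.infinitePi fun _ : ℕ => m3), P ω) →
  ∀ᵐ ω ∂(Measure.infinitePi fun _ : ℕ => m3), ∀ ω' : ℕ → ZMod 3, {p | ω' p ≠ ω p}.Finite → P ω'

end

end Pool.Agent.Q255.CU
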