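import Pool.Agent.Q255.CU.Stm

set_option autoImplicit false

/-! Almost sure bounds for the sums over intervals. -/

namespace Pool.Agent.Q255.CU

open MeasureTheory Filter Topology Finset
open Pool.Agent.Q255.HC (Sys ex S_AEG)

open Classical in
/-- all characters modulo `q` (`q ≥ 1`) -/
noncomputable def chars (q : ℕ) : Finset (DirichletCharacter ℂ q) :=
  if h : q = 0 then ∅ else
    haveI : NeZero q := ⟨h⟩
    (Set.toFinite (Set.univ : Set (DirichletCharacter ℂ q))).toFinset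

lemma mem_chars {q : ℕ} (hq : 1 ≤ q) (χ : DirichletCharacter ℂ q) : χ ∈ chars q := by
  unfold chars
  rw [dif_neg (by omega)]
  simp

lemma card_chars {q : ℕ} : (chars q).card ≤ q := by
  unfold chars
  split_ifs with h
  · simp
  · have : NeZero q := ⟨h⟩
    rw [← Set.ncard_eq_toFinset_card, Set.ncard_univ]
    rw [DirichletCharacter.card_eq_totient_of_hasEnoughRootsOfUnity]
    exact Nat.totient_le q

/-- the parameters -/
noncomputable def TT (A R : ℕ) : Finset (Σ q : ℕ, DirichletCharacter ℂ q × ℕ × ℕ) :=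
  (Icc 1 R).sigma fun q => chars q ×ˢ (range (R ^ A + 1) ×ˢ Icc 1 (R ^ A))

lemma mem_TT {A R : ℕ} {t : Σ q : ℕ, DirichletCharacter ℂ q × ℕ × ℕ} : t ∈ TT A R ↔
    (1 ≤ t.1 ∧ t.1 ≤ R) ∧ t.2.1 ∈ chars t.1 ∧ t.2.2.1 ≤ R ^ A ∧ 1 ≤ t.2.2.2 ∧ t.2.2.2 ≤ R ^ A := by
  unfold TT
  rw [mem_sigma, mem_product, mem_product, mem_Icc, mem_range, mem_Icc, Nat.lt_succ_iff]

lemma card_TT (A R : ℕ) (hR : 1 ≤ R) : ((TT A R).card : ℝ) ≤ 2 * (R : ℝ) ^ (2 * A + 2) := by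
  have h1 : (TT A R).card ≤ R * (R * ((R ^ A + 1) * R ^ A)) := by
    unfold TT
    rw [card_sigma]
    calc ∑ q ∈ Icc 1 R, (chars q ×ˢ (range (R ^ A + 1) ×ˢ Icc 1 (R ^ A))).card
        ≤ ∑ q ∈ Icc 1 R, R * ((R ^ A + 1) * R ^ A) := by
          refine sum_le_sum fun q hq => ?_
          rw [card_product, card_product, card_range, Nat.card_Icc, Nat.add_sub_cancel]
          exact Nat.mul_le_mul_right _ (card_chars.trans (mem_Icc.1 hq).2)
      _ = _ := by rw [sum_const, Nat.card_Icc, Nat.add_sub_cancel, smul_eq_mul]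
  have h2 : R * (R * ((R ^ A + 1) * R ^ A)) ≤ 2 * R ^ (2 * A + 2) := by
    have h3 : 1 ≤ R ^ A := Nat.one_le_pow _ _ hR
    calc R * (R * ((R ^ A + 1) * R ^ A)) ≤ R * (R * ((R ^ A + R ^ A) * R ^ A)) := by gcongr
      _ = 2 * R ^ (2 * A + 2) := by ring
  exact_mod_cast h1.trans h2

/-- the coefficient of one class -/
noncomputable def cc (t : Σ q : ℕ, DirichletCharacter ℂ q × ℕ × ℕ) (x : ℕ →₀ ZMod 3) : ℂ :=
  ∑ a ∈ (Ioc t.2.2.1 (t.2.2.1 + t.2.2.2)).filter (fun a => fc a = x), t.2.1 (a : ZMod t.1)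

lemma norm_cc (t : Σ q : ℕ, DirichletCharacter ℂ q × ℕ × ℕ) (x : ℕ →₀ ZMod 3) :
    ‖cc t x‖ ^ 2 ≤
      (((Ioc t.2.2.1 (t.2.2.1 + t.2.2.2)).filter (fun a => fc a = x)).card : ℝ) ^ 2 := by
  refine pow_le_pow_left₀ (norm_nonneg _) ?_ 2
  unfold cc
  refine (norm_sum_le _ _).trans ?_
  refine (sum_le_sum (g := fun _ => (1 : ℝ)) fun a _ =>
    DirichletCharacter.norm_le_one t.2.1 ((a : ℕ) : ZMod t.1)).trans ?_
  rw [sum_const, nsmul_eq_mul, mul_one]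

theorem ae_int (aeg : S_AEG) (syt : S_SYT) (wgt : S_WGT) (cub : S_CUB) (A : ℕ) (δ : ℝ)
    (hδ : 0 < δ) :
    ∀ᵐ ω ∂(Measure.infinitePi fun _ : ℕ => m3), ∃ C : ℝ, ∀ Q : ℕ, 1 ≤ Q → ∀ q : ℕ, 1 ≤ q → q ≤ Q →
      ∀ (χ : DirichletCharacter ℂ q) (M N : ℕ), M ≤ Q ^ A → 1 ≤ N → N ≤ Q ^ A →
        ‖∑ a ∈ Ioc M (M + N), f3 ω a * χ (a : ZMod q)‖ ≤ C * Real.sqrt N * (Q : ℝ) ^ δ := by
  classical
  have : IsProbabilityMeasure m3 := by
    unfold m3
    infer_instance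
  have hae := aeg (ZMod 3) m3 (ZMod 3) e3 v3 syt.1 (Σ q : ℕ, DirichletCharacter ℂ q × ℕ × ℕ)
    (TT A) (2 * A + 2) 2 (fun R hR => card_TT A R hR)
    (fun _ t => (Ioc t.2.2.1 (t.2.2.1 + t.2.2.2)).image fc) (fun _ t => cc t)
    (fun _ t => 20 * (t.2.2.2 : ℝ)) (by
      intro K hK η hη
      obtain ⟨D, hD, h1⟩ := wgt K hK (η / (A + 1)) (by positivity)
      refine ⟨D * 2 ^ (η / (A + 1)), fun R hR t ht x hx => ?_⟩
      rw [mem_image] at hx
      obtain ⟨a, ha, rfl⟩ := hx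
      rw [mem_Ioc] at ha
      have h2 := mem_TT.1 ht
      have hR1 : (1 : ℝ) ≤ R := by exact_mod_cast hR
      have h3 : (a : ℝ) ≤ 2 * (R : ℝ) ^ A := by
        have : a ≤ 2 * R ^ A := by omega
        exact_mod_cast this
      refine (h1 a (by omega)).trans ?_
      rw [mul_assoc]
      refine mul_le_mul_of_nonneg_left ?_ hD.le
      calc (a : ℝ) ^ (η / (A + 1)) ≤ (2 * (R : ℝ) ^ A) ^ (η / (A + 1)) :=
            Real.rpow_le_rpow (Nat.cast_nonneg _) h3 (by positivity)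
        _ = 2 ^ (η / (A + 1)) * (R : ℝ) ^ (A * (η / (A + 1))) := by
            rw [Real.mul_rpow (by norm_num) (by positivity), ← Real.rpow_natCast (R : ℝ) A,
              ← Real.rpow_mul (by linarith)]
        _ ≤ 2 ^ (η / (A + 1)) * (R : ℝ) ^ η := by
            refine mul_le_mul_of_nonneg_left ?_ (by positivity)
            refine Real.rpow_le_rpow_of_exponent_le hR1 ?_
            rw [mul_div_assoc', div_le_iff₀ (by positivity)]
            nlinarith) (by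
      intro R hR t ht
      have h2 := mem_TT.1 ht
      have h3 : (0 : ℝ) < t.2.2.2 := by exact_mod_cast h2.2.2.2.1
      refine ⟨by positivity, ?_⟩
      exact (sum_le_sum fun x _ => norm_cc t x).trans (cub t.2.2.1 t.2.2.2 h2.2.2.2.1))
    δ hδ
  filter_upwards [hae] with ω hω
  obtain ⟨R0, hR0⟩ := eventually_atTop.1 hω
  have hsum : ∀ t : Σ q : ℕ, DirichletCharacter ℂ q × ℕ × ℕ,
      ∑ x ∈ (Ioc t.2.2.1 (t.2.2.1 + t.2.2.2)).image fc, cc t x * ex e3 x ω =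
        ∑ a ∈ Ioc t.2.2.1 (t.2.2.1 + t.2.2.2), f3 ω a * t.2.1 (a : ZMod t.1) := by
    intro t
    rw [← sum_fiberwise_of_maps_to (s := Ioc t.2.2.1 (t.2.2.1 + t.2.2.2))
      (t := (Ioc t.2.2.1 (t.2.2.1 + t.2.2.2)).image fc) (g := fc)
      (fun a ha => mem_image_of_mem fc ha)]
    refine sum_congr rfl fun x _ => ?_
    unfold cc
    rw [sum_mul]
    refine sum_congr rfl fun a ha => ?_
    rw [mem_filter, mem_Ioc] at ha
    rw [syt.2.1 ω a (by omega), ha.2, mul_comm]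
  set F : (Σ q : ℕ, DirichletCharacter ℂ q × ℕ × ℕ) → ℝ := fun t =>
    ‖∑ a ∈ Ioc t.2.2.1 (t.2.2.1 + t.2.2.2), f3 ω a * t.2.1 (a : ZMod t.1)‖ with hF
  have hF0 : ∀ t, 0 ≤ F t := fun t => norm_nonneg _
  refine ⟨Real.sqrt 20 + ∑ R ∈ range R0, ∑ t ∈ TT A R, F t, ?_⟩
  intro Q hQ q hq hqQ χ M N hM hN hNQ
  have hmem : (⟨q, χ, M, N⟩ : Σ q : ℕ, DirichletCharacter ℂ q × ℕ × ℕ) ∈ TT A Q :=
    mem_TT.2 ⟨⟨hq, hqQ⟩, mem_chars hq χ, hM, hN, hNQ⟩
  have hQ1 : (1 : ℝ) ≤ Q := by exact_mod_cast hQ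
  have hN1 : (1 : ℝ) ≤ N := by exact_mod_cast hN
  have hp : (1 : ℝ) ≤ Real.sqrt N * (Q : ℝ) ^ δ := by
    have h1 : (1 : ℝ) ≤ Real.sqrt N := by
      rw [Real.one_le_sqrt]
      exact hN1
    have h2 : (1 : ℝ) ≤ (Q : ℝ) ^ δ := Real.one_le_rpow hQ1 hδ.le
    nlinarith
  have hs0 : 0 ≤ ∑ R ∈ range R0, ∑ t ∈ TT A R, F t :=
    sum_nonneg fun R _ => sum_nonneg fun t _ => hF0 t
  rw [mul_assoc]
  rcases lt_or_ge Q R0 with hlt | hge
  · have h1 : F ⟨q, χ, M, N⟩ ≤ ∑ R ∈ range R0, ∑ t ∈ TT A R, F t := by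
      refine le_trans ?_ (single_le_sum (f := fun R => ∑ t ∈ TT A R, F t)
        (fun R _ => sum_nonneg fun t _ => hF0 t) (mem_range.2 hlt))
      exact single_le_sum (f := fun t => F t) (fun t _ => hF0 t) hmem
    calc F ⟨q, χ, M, N⟩ ≤ ∑ R ∈ range R0, ∑ t ∈ TT A R, F t := h1
      _ ≤ Real.sqrt 20 + ∑ R ∈ range R0, ∑ t ∈ TT A R, F t := by
          have := Real.sqrt_nonneg 20
          linarith
      _ ≤ _ := le_mul_of_one_le_right (by positivity) hp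
  · have h1 := hR0 Q hge _ hmem
    rw [hsum] at h1
    have h2 : (Q : ℝ) ^ δ * Real.sqrt (20 * (N : ℝ)) = Real.sqrt 20 * (Real.sqrt N * (Q : ℝ) ^ δ) := by
      rw [Real.sqrt_mul (by norm_num)]
      ring
    have h3 : F ⟨q, χ, M, N⟩ ≤ Real.sqrt 20 * (Real.sqrt N * (Q : ℝ) ^ δ) := by
      rw [← h2]
      exact h1
    refine h3.trans ?_
    rw [add_mul]
    have : 0 ≤ (∑ R ∈ range R0, ∑ t ∈ TT A R, F t) * (Real.sqrt N * (Q : ℝ) ^ δ) := by positivity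
    linarith

end Pool.Agent.Q255.CU
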